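import Pool.Agent.H5.PermGame

set_option autoImplicit false

namespace Pool.Agent.Results.MP_337ab5_co.ConvI

open Pool.Agent.H5.PermGameDefs

theorem result (N : ℕ) (hN : 1 ≤ N) :
    (AWins N (2 * N) [] ↔ N ≤ 2) ∧ (BWins N (2 * N) [] ↔ 3 ≤ N) :=
  H5.PermGame.main N hN

end Pool.Agent.Results.MP_337ab5_co.ConvI
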